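import Pool.Agent.H91.RF.TargetsA
import Pool.Agent.H91.RD.Basic

/-!
# MP_609556_an, module AHD0: exponential decay of the derivatives ahead of the first speed
-/

open MeasureTheory Set Filter Topology Metric
open Pool.Agent.H29.TF (hk P hk_nonneg integral_hk_sub integrable_hk_sub)
open Pool.Agent.H91.RD Pool.Agent.H91.RF

namespace Pool.Agent.H54.RF

/-- the kernel times an exponential is bounded by a kernel of larger time -/
theorem hk8_exp (N : ℕ) (c : ℝ) : ∃ Kc : ℝ, 0 < Kc ∧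
    ∀ z : E N, hk 8 z * Real.exp (c * ‖z‖) ≤ Kc * hk 16 z := by
  refine ⟨(4 * Real.pi * 8) ^ (-(Module.finrank ℝ (E N) : ℝ) / 2) /
    (4 * Real.pi * 16) ^ (-(Module.finrank ℝ (E N) : ℝ) / 2) * Real.exp (16 * c ^ 2),
    by positivity, fun z => ?_⟩
  unfold hk
  have hA : 0 < (4 * Real.pi * 8) ^ (-(Module.finrank ℝ (E N) : ℝ) / 2) := by positivity
  have hB : 0 < (4 * Real.pi * 16) ^ (-(Module.finrank ℝ (E N) : ℝ) / 2) := by positivity
  set A := (4 * Real.pi * 8) ^ (-(Module.finrank ℝ (E N) : ℝ) / 2)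
  set B := (4 * Real.pi * 16) ^ (-(Module.finrank ℝ (E N) : ℝ) / 2)
  have h1 : Real.exp (-‖z‖ ^ 2 / (4 * 8)) * Real.exp (c * ‖z‖) ≤
      Real.exp (16 * c ^ 2) * Real.exp (-‖z‖ ^ 2 / (4 * 16)) := by
    rw [← Real.exp_add, ← Real.exp_add]
    apply Real.exp_le_exp.2
    nlinarith [sq_nonneg (‖z‖ / 8 - 4 * c)]
  calc A * Real.exp (-‖z‖ ^ 2 / (4 * 8)) * Real.exp (c * ‖z‖)
      = A * (Real.exp (-‖z‖ ^ 2 / (4 * 8)) * Real.exp (c * ‖z‖)) := by ring
    _ ≤ A * (Real.exp (16 * c ^ 2) * Real.exp (-‖z‖ ^ 2 / (4 * 16))) := by gcongr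
    _ = A / B * Real.exp (16 * c ^ 2) * (B * Real.exp (-‖z‖ ^ 2 / (4 * 16))) := by
        field_simp

theorem ahd0 (hMC : T_MC) (hIEU : T_IEU) : T_AHD0 := by
  intro N f K U u J b c y hS hT
  have hc : 0 < c 0 := (hT.ext 0 hT.J0).cpos
  obtain ⟨C, hC1, hC⟩ := hIEU N f K hS.reac hS.lip
  obtain ⟨Kc, hKc, hKc2⟩ := hk8_exp N (c 0)
  refine ⟨1, one_pos, fun ε hε => ?_⟩
  obtain ⟨T1, hT1, hu⟩ := hMC N f K U u J b c y hS hT (ε / 2) (by positivity)
  -- a large time
  obtain ⟨T2, hT2⟩ : ∃ T2 : ℝ, ∀ t ≥ T2, C * Kc ≤ Real.exp (ε / 2 * t) := by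
    refine ⟨2 / ε * (C * Kc), fun t ht => ?_⟩
    have h1 : C * Kc ≤ ε / 2 * t := by
      have := mul_le_mul_of_nonneg_left ht (show 0 ≤ ε / 2 by positivity)
      calc C * Kc = ε / 2 * (2 / ε * (C * Kc)) := by field_simp
        _ ≤ _ := this
    exact h1.trans ((by linarith : ε / 2 * t ≤ ε / 2 * t + 1).trans (Real.add_one_le_exp _))
  refine ⟨max (T1 + 3) (max T2 (4 * c 0 + 8)), by positivity, fun t ht x h1 h2 => ?_⟩
  have ht1 : T1 + 3 ≤ t := (le_max_left _ _).trans ht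
  have ht2 : T2 ≤ t := ((le_max_left _ _).trans (le_max_right _ _)).trans ht
  have ht3 : 4 * c 0 + 8 ≤ t := ((le_max_right _ _).trans (le_max_right _ _)).trans ht
  have ht0 : 0 < t := by linarith
  have key := hC U u hS.sol 0 ⟨le_rfl, zero_le_one⟩ hS.reac.zero t (by linarith) x
  set D : ℝ := infDist x U - c 0 * t with hD
  have hD0 : 0 ≤ D := by rw [hD]; linarith
  have hDt : D ≤ t := by rw [hD]; linarith
  -- pointwise bound
  have hpt : ∀ z, |u (t - 2) z - 0| ≤
      Real.exp (-(c 0 / 2 * D) + ε / 2 * t) * Real.exp (c 0 * ‖x - z‖) := by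
    intro z
    rw [sub_zero, abs_of_nonneg (hS.sol.nonneg (by linarith) z), ← Real.exp_add]
    have hle1 : u (t - 2) z ≤ 1 := hS.sol.le_one (by linarith) z
    have hd1 : infDist x U ≤ infDist z U + ‖x - z‖ := by
      rw [← dist_eq_norm]
      exact infDist_le_infDist_add_dist
    have hd2 : infDist z U ≤ infDist x U + ‖x - z‖ := by
      rw [← dist_eq_norm, dist_comm]
      exact infDist_le_infDist_add_dist
    have hn : 0 ≤ ‖x - z‖ := norm_nonneg _
    have hcn : 0 ≤ c 0 * ‖x - z‖ := by positivity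
    have hεt : 0 ≤ ε / 2 * t := by positivity
    rcases le_or_gt (infDist z U) ((c 0 + 2) * (t - 2)) with h3 | h3
    · rcases le_or_gt (c 0 * (t - 2)) (infDist z U) with h4 | h4
      · refine (hu (t - 2) (by linarith) z h4 h3).trans (Real.exp_le_exp.2 ?_)
        have h5 : D - ‖x - z‖ ≤ infDist z U - c 0 * (t - 2) := by
          rw [hD]
          nlinarith
        have h6 := mul_le_mul_of_nonneg_left h5 (show 0 ≤ c 0 / 2 by positivity)
        have h7 : ε / 2 * (t - 2) ≤ ε / 2 * t := by nlinarith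
        nlinarith
      · refine hle1.trans (Real.one_le_exp ?_)
        have h5 : D ≤ ‖x - z‖ := by
          rw [hD]
          nlinarith
        nlinarith
    · refine hle1.trans (Real.one_le_exp ?_)
      have h5 : t / 2 ≤ ‖x - z‖ := by nlinarith
      nlinarith
  have hint : (∫ z, hk 8 (x - z) * |u (t - 2) z - 0|) ≤
      Real.exp (-(c 0 / 2 * D) + ε / 2 * t) * Kc := by
    have hb : ∀ z : E N, hk 8 (x - z) * |u (t - 2) z - 0| ≤
        Real.exp (-(c 0 / 2 * D) + ε / 2 * t) * Kc * hk 16 (x - z) := by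
      intro z
      have h8 : 0 ≤ hk 8 (x - z) := hk_nonneg (by norm_num) _
      calc hk 8 (x - z) * |u (t - 2) z - 0|
          ≤ hk 8 (x - z) * (Real.exp (-(c 0 / 2 * D) + ε / 2 * t) * Real.exp (c 0 * ‖x - z‖)) :=
            mul_le_mul_of_nonneg_left (hpt z) h8
        _ = Real.exp (-(c 0 / 2 * D) + ε / 2 * t) * (hk 8 (x - z) * Real.exp (c 0 * ‖x - z‖)) := by
            ring
        _ ≤ Real.exp (-(c 0 / 2 * D) + ε / 2 * t) * (Kc * hk 16 (x - z)) :=
            mul_le_mul_of_nonneg_left (hKc2 _) (Real.exp_nonneg _)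
        _ = _ := by ring
    calc (∫ z, hk 8 (x - z) * |u (t - 2) z - 0|)
        ≤ ∫ z, Real.exp (-(c 0 / 2 * D) + ε / 2 * t) * Kc * hk 16 (x - z) := by
          refine integral_mono_of_nonneg (Filter.Eventually.of_forall fun z => ?_)
            ((integrable_hk_sub (by norm_num) x).const_mul _) (Filter.Eventually.of_forall hb)
          exact mul_nonneg (hk_nonneg (by norm_num) _) (abs_nonneg _)
      _ = _ := by rw [integral_const_mul, integral_hk_sub (by norm_num), mul_one]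
  calc gr u t x + |dt u t x|
      ≤ C * ∫ z, hk 8 (x - z) * |u (t - 2) z - 0| := key
    _ ≤ C * (Real.exp (-(c 0 / 2 * D) + ε / 2 * t) * Kc) :=
        mul_le_mul_of_nonneg_left hint (by linarith)
    _ = C * Kc * Real.exp (-(c 0 / 2 * D) + ε / 2 * t) := by ring
    _ ≤ Real.exp (ε / 2 * t) * Real.exp (-(c 0 / 2 * D) + ε / 2 * t) :=
        mul_le_mul_of_nonneg_right (hT2 t ht2) (Real.exp_nonneg _)
    _ = Real.exp (-(c 0 / 2 * D) + ε * t) := by
        rw [← Real.exp_add]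
        congr 1
        ring

end Pool.Agent.H54.RF
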