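import Pool.Agent.H91.RD.Basic
import Pool.Agent.H78.RF.Ode

/-!
# MP_609556_an, full answer: module TE2, first part (Newton's equation `Q'' = -f(Q)`)
-/

open MeasureTheory Set Filter Topology Metric
open scoped NNReal
open Pool.Agent.H91.RD Pool.Agent.H78.RF

namespace Pool.Agent.H54.RF

/-- the potential `∫_r^1 f` -/
noncomputable def Fp (f : ℝ → ℝ) (r : ℝ) : ℝ := ∫ x in r..1, f x

section pot

variable {f : ℝ → ℝ} {K : ℝ}

theorem Fp_one : Fp f 1 = 0 := by
  unfold Fp
  exact intervalIntegral.integral_same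

theorem Fp_add (hL : Lip f K) (a b : ℝ) : Fp f a = (∫ x in a..b, f x) + Fp f b := by
  unfold Fp
  exact (intervalIntegral.integral_add_adjacent_intervals
    (hL.continuous.intervalIntegrable _ _) (hL.continuous.intervalIntegrable _ _)).symm

theorem hasDerivAt_Fp (hL : Lip f K) (r : ℝ) : HasDerivAt (Fp f) (-f r) r := by
  unfold Fp
  exact intervalIntegral.integral_hasDerivAt_left (hL.continuous.intervalIntegrable _ _)
    (hL.continuous.stronglyMeasurableAtFilter _ _) hL.continuous.continuousAt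

theorem continuous_Fp (hL : Lip f K) : Continuous (Fp f) :=
  continuous_iff_continuousAt.2 fun r => (hasDerivAt_Fp hL r).continuousAt

theorem abs_f_le (hL : Lip f K) (x : ℝ) : |f x| ≤ K := by
  by_cases hx : x ∈ Icc (0 : ℝ) 1
  · refine (hL.abs_le x).trans ?_
    rw [abs_of_nonneg hx.1]
    exact mul_le_of_le_one_right hL.K0.le hx.2
  · rw [hL.out x hx, abs_zero]
    exact hL.K0.le

theorem Fp_of_one_le (hL : Lip f K) {r : ℝ} (hr : 1 ≤ r) : Fp f r = 0 := by
  unfold Fp
  rw [intervalIntegral.integral_symm, neg_eq_zero]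
  apply intervalIntegral.integral_zero_ae
  refine Eventually.of_forall fun x hx => ?_
  rw [uIoc_of_le hr] at hx
  exact hL.out x fun h => absurd h.2 (not_le.2 hx.1)

theorem Fp_of_nonpos (hL : Lip f K) {r : ℝ} (hr : r ≤ 0) : Fp f r = Fp f 0 := by
  rw [Fp_add hL r 0]
  have h1 : ∫ x in r..0, f x = 0 := by
    apply intervalIntegral.integral_zero_ae
    refine Eventually.of_forall fun x hx => ?_
    rw [uIoc_of_le hr] at hx
    rcases hx.2.eq_or_lt with h | h
    · rw [h, hL.f0]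
    · exact hL.out x fun h' => absurd h'.1 (not_le.2 h)
  rw [h1, zero_add]

theorem Fp_le (hL : Lip f K) (r : ℝ) : Fp f r ≤ K := by
  have key : ∀ r ∈ Icc (0 : ℝ) 1, Fp f r ≤ K := by
    intro r hr
    have h1 : ‖∫ x in r..1, f x‖ ≤ K * |1 - r| :=
      intervalIntegral.norm_integral_le_of_norm_le_const fun x _ => abs_f_le hL x
    have h2 : |1 - r| ≤ 1 := by
      rw [abs_of_nonneg (by linarith [hr.2])]
      linarith [hr.1]
    have h3 : Fp f r ≤ ‖∫ x in r..1, f x‖ := le_abs_self _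
    have h4 := mul_le_of_le_one_right hL.K0.le h2
    linarith
  rcases le_total r 0 with h | h
  · rw [Fp_of_nonpos hL h]
    exact key 0 ⟨le_rfl, zero_le_one⟩
  · rcases le_total r 1 with h' | h'
    · exact key r ⟨h, h'⟩
    · rw [Fp_of_one_le hL h']
      exact hL.K0.le

/-- quadratic bound of `∫_r^1 f` when `∫_0^1 f = 0` -/
theorem Fp_sq (hL : Lip f K) (h0 : Fp f 0 = 0) {r : ℝ} (hr : 0 ≤ r) :
    2 * Fp f r ≤ K * r ^ 2 := by
  have h1 := Fp_add hL 0 r
  rw [h0] at h1
  have h2 : -(∫ x in (0 : ℝ)..r, f x) ≤ ∫ x in (0 : ℝ)..r, K * x := by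
    rw [← intervalIntegral.integral_neg]
    refine intervalIntegral.integral_mono_on hr (hL.continuous.neg.intervalIntegrable _ _)
      ((continuous_const.mul continuous_id).intervalIntegrable _ _) fun x hx => ?_
    have := hL.abs_le x
    rw [abs_of_nonneg hx.1] at this
    linarith [neg_abs_le (f x)]
  have h3 : ∫ x in (0 : ℝ)..r, K * x = K * (r ^ 2 / 2) := by
    rw [intervalIntegral.integral_const_mul, integral_id]
    ring
  rw [h3] at h2
  linarith

/-- the sign of `f` at a zero of `∫_r^1 f`, and its consequence -/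
theorem exists_s1 (hL : Lip f K) {δ : ℝ} (hδ : 0 < δ)
    (hpos : ∀ s ∈ Ioo (1 - δ) 1, 0 < f s) {s : ℝ} (hs : s ∈ Ico (0 : ℝ) 1) (hF : Fp f s ≤ 0) :
    ∃ s1 ∈ Ico (0 : ℝ) 1, Fp f s1 = 0 ∧ (∀ r ∈ Ioo s1 1, 0 < Fp f r) ∧
      (f s1 = 0 ∨ (0 < s1 ∧ ∃ η > 0, ∀ r ∈ Ioo (s1 - η) s1, Fp f r < 0)) := by
  have hnear : ∀ r ∈ Ico (1 - δ) 1, 0 < Fp f r := by
    intro r hr
    refine intervalIntegral.intervalIntegral_pos_of_pos_on
      (hL.continuous.intervalIntegrable _ _) (fun x hx => ?_) hr.2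
    exact hpos x ⟨lt_of_le_of_lt hr.1 hx.1, hx.2⟩
  obtain ⟨T, hT⟩ : ∃ T, T = {x ∈ Icc 0 (1 - δ) | Fp f x ≤ 0} := ⟨_, rfl⟩
  have hTc : IsCompact T := by
    have : IsClosed T := by
      rw [hT]
      exact (continuous_Fp hL).continuousOn.preimage_isClosed_of_isClosed isClosed_Icc isClosed_Iic
    exact isCompact_Icc.of_isClosed_subset this (by rw [hT]; exact fun x hx => hx.1)
  have hne : T.Nonempty := by
    refine ⟨s, ?_⟩
    rw [hT]
    refine ⟨⟨hs.1, ?_⟩, hF⟩
    by_contra hcon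
    push Not at hcon
    linarith [hnear s ⟨hcon.le, hs.2⟩]
  obtain ⟨s1, hs1, hmax⟩ := hTc.exists_isGreatest hne
  have hs1' := hs1
  rw [hT] at hs1'
  have hs11 : s1 < 1 := by linarith [hs1'.1.2]
  have hgt : ∀ r ∈ Ioo s1 1, 0 < Fp f r := by
    intro r hr
    by_contra hcon
    push Not at hcon
    by_cases hr1 : r ≤ 1 - δ
    · have : r ∈ T := by
        rw [hT]
        exact ⟨⟨hs1'.1.1.trans hr.1.le, hr1⟩, hcon⟩
      exact absurd (hmax this) (not_le.2 hr.1)
    · push Not at hr1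
      linarith [hnear r ⟨hr1.le, hr.2⟩]
  have hge : 0 ≤ Fp f s1 := by
    have h1 : Tendsto (Fp f) (𝓝[>] s1) (𝓝 (Fp f s1)) :=
      ((continuous_Fp hL).tendsto s1).mono_left nhdsWithin_le_nhds
    refine ge_of_tendsto h1 ?_
    filter_upwards [Ioo_mem_nhdsGT hs11] with r hr
    exact (hgt r hr).le
  have hz : Fp f s1 = 0 := le_antisymm hs1'.2 hge
  refine ⟨s1, ⟨hs1'.1.1, hs11⟩, hz, hgt, ?_⟩
  rcases lt_trichotomy (f s1) 0 with h | h | h
  · right
    refine ⟨?_, ?_⟩
    · rcases hs1'.1.1.eq_or_lt with h0 | h0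
      · rw [← h0, hL.f0] at h
        exact absurd h (lt_irrefl _)
      · exact h0
    · have h1 : ∀ᶠ x in 𝓝 s1, f x < 0 := (hL.continuous.tendsto s1).eventually (gt_mem_nhds h)
      obtain ⟨η, hη, h2⟩ := Metric.eventually_nhds_iff.1 h1
      refine ⟨η, hη, fun r hr => ?_⟩
      rw [Fp_add hL r s1, hz, add_zero]
      have h3 : 0 < ∫ x in r..s1, -f x := by
        refine intervalIntegral.intervalIntegral_pos_of_pos_on
          (hL.continuous.neg.intervalIntegrable _ _) (fun x hx => ?_) hr.2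
        have : f x < 0 := h2 (by
          rw [Real.dist_eq, abs_lt]
          constructor <;> linarith [hx.1, hx.2, hr.1])
        linarith
      rw [intervalIntegral.integral_neg] at h3
      linarith
  · exact Or.inl h
  · exfalso
    have h1 : ∀ᶠ x in 𝓝 s1, 0 < f x := (hL.continuous.tendsto s1).eventually (lt_mem_nhds h)
    obtain ⟨η, hη, h2⟩ := Metric.eventually_nhds_iff.1 h1
    obtain ⟨r, hr1, hr2⟩ : ∃ r, s1 < r ∧ r < min (s1 + η) 1 :=
      exists_between (lt_min (by linarith) hs11)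
    have hr3 := lt_of_lt_of_le hr2 (min_le_left _ _)
    have hr4 := lt_of_lt_of_le hr2 (min_le_right _ _)
    have h3 : 0 < ∫ x in s1..r, f x := by
      refine intervalIntegral.intervalIntegral_pos_of_pos_on
        (hL.continuous.intervalIntegrable _ _) (fun x hx => ?_) hr1
      exact h2 (by
        rw [Real.dist_eq, abs_lt]
        constructor <;> linarith [hx.1, hx.2])
    have h4 := Fp_add hL s1 r
    rw [hz] at h4
    linarith [hgt r ⟨hr1, hr4⟩]

end pot

/-! ### the flow -/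

/-- clamp -/
noncomputable def cl (R p : ℝ) : ℝ := max (-R) (min p R)

theorem cl_lip (R : ℝ) : LipschitzWith 1 (cl R) := by
  unfold cl
  exact (LipschitzWith.id.min_const R).const_max (-R)

theorem cl_abs {R : ℝ} (hR : 0 ≤ R) (p : ℝ) : |cl R p| ≤ R := by
  unfold cl
  rw [abs_le]
  exact ⟨le_max_left _ _, max_le (by linarith) (min_le_right _ _)⟩

theorem cl_eq {R p : ℝ} (h : |p| ≤ R) : cl R p = p := by
  unfold cl
  rw [abs_le] at h
  rw [min_eq_left h.2, max_eq_right h.1]

/-- primitive of the clamp -/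
noncomputable def Cl (R p : ℝ) : ℝ := ∫ s in (0 : ℝ)..p, cl R s

theorem hasDerivAt_Cl (R p : ℝ) : HasDerivAt (Cl R) (cl R p) p := by
  unfold Cl
  have hc : Continuous (cl R) := (cl_lip R).continuous
  exact intervalIntegral.integral_hasDerivAt_right (hc.intervalIntegrable _ _)
    (hc.stronglyMeasurableAtFilter _ _) hc.continuousAt

theorem Cl_eq {R p : ℝ} (h : |p| ≤ R) : Cl R p = p ^ 2 / 2 := by
  unfold Cl
  have h1 : ∫ s in (0 : ℝ)..p, cl R s = ∫ s in (0 : ℝ)..p, s := by
    refine intervalIntegral.integral_congr fun s hs => ?_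
    refine cl_eq ?_
    rw [mem_uIcc] at hs
    have h2 := abs_le.1 h
    rw [abs_le]
    rcases hs with hs | hs
    · constructor <;> linarith [hs.1, hs.2, h2.1, h2.2]
    · constructor <;> linarith [hs.1, hs.2, h2.1, h2.2]
  rw [h1, integral_id]
  ring

theorem Cl_ge {R p : ℝ} (hR : 0 < R) (h : R < |p|) : R ^ 2 / 2 ≤ Cl R p := by
  have hc : Continuous (cl R) := (cl_lip R).continuous
  rcases lt_abs.1 h with h1 | h1
  · have h2 : Cl R p = Cl R R + ∫ s in R..p, cl R s :=
      (intervalIntegral.integral_add_adjacent_intervals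
        (hc.intervalIntegrable _ _) (hc.intervalIntegrable _ _)).symm
    have h3 : 0 ≤ ∫ s in R..p, cl R s := by
      refine intervalIntegral.integral_nonneg h1.le fun s hs => ?_
      unfold cl
      rw [min_eq_right hs.1]
      exact hR.le.trans (le_max_right _ _)
    have h4 : Cl R R = R ^ 2 / 2 := Cl_eq (by rw [abs_of_pos hR])
    linarith
  · have h2 : Cl R p = Cl R (-R) + ∫ s in (-R)..p, cl R s :=
      (intervalIntegral.integral_add_adjacent_intervals
        (hc.intervalIntegrable _ _) (hc.intervalIntegrable _ _)).symm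
    have h3 : 0 ≤ ∫ s in (-R)..p, cl R s := by
      rw [intervalIntegral.integral_symm, ← intervalIntegral.integral_neg]
      refine intervalIntegral.integral_nonneg (by linarith) fun s hs => ?_
      unfold cl
      rw [min_eq_left (by linarith [hs.2]), max_eq_left (by linarith [hs.2])]
      linarith
    have h4 : Cl R (-R) = R ^ 2 / 2 := by
      rw [Cl_eq (by rw [abs_neg, abs_of_pos hR])]
      ring
    linarith

/-- Newton's equation `Q'' = -f(Q)` on the zero energy level -/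
theorem flow {f : ℝ → ℝ} {K : ℝ} (hL : Lip f K) (q0 p0 : ℝ) (h0 : p0 ^ 2 = 2 * Fp f q0) :
    ∃ Q p : ℝ → ℝ, Q 0 = q0 ∧ p 0 = p0 ∧ (∀ z, HasDerivAt Q (p z) z) ∧
      (∀ z, HasDerivAt p (-f (Q z)) z) ∧ ∀ z, p z ^ 2 = 2 * Fp f (Q z) := by
  have hK := hL.K0
  obtain ⟨R, hR⟩ : ∃ R, R = √(2 * K + 2) := ⟨_, rfl⟩
  have hRpos : 0 < R := by
    rw [hR]
    positivity
  have hR2 : R ^ 2 = 2 * K + 2 := by
    rw [hR, Real.sq_sqrt (by linarith)]
  set v : ℝ × ℝ → ℝ × ℝ := fun y => (cl R y.2, -f y.1) with hv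
  have hvl : LipschitzWith (max (1 * 1) (K.toNNReal * 1)) v :=
    ((cl_lip R).comp LipschitzWith.prod_snd).prodMk
      ((hL.lipschitz.neg).comp LipschitzWith.prod_fst)
  have hvb : ∀ y, ‖v y‖ ≤ max R K := by
    intro y
    rw [hv, Prod.norm_def]
    refine max_le_max ?_ ?_
    · exact cl_abs hRpos.le _
    · show ‖-f y.1‖ ≤ K
      rw [norm_neg]
      exact abs_f_le hL _
  obtain ⟨γ, hγ0, hγ⟩ := exists_global v _ hvl (max R K) hvb (q0, p0)
  have hQ : ∀ z, HasDerivAt (fun z => (γ z).1) (cl R (γ z).2) z := fun z => (hγ z).fst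
  have hp : ∀ z, HasDerivAt (fun z => (γ z).2) (-f (γ z).1) z := fun z => (hγ z).snd
  have hE : ∀ z, Cl R (γ z).2 - Fp f (γ z).1 = Cl R p0 - Fp f q0 := by
    intro z
    have hd : ∀ z, HasDerivAt (fun z => Cl R (γ z).2 - Fp f (γ z).1) 0 z := by
      intro z
      have h1 := (hasDerivAt_Cl R (γ z).2).comp z (hp z)
      have h2 := (hasDerivAt_Fp hL (γ z).1).comp z (hQ z)
      have h3 := h1.sub h2
      refine h3.congr_deriv ?_
      ring
    have h1 := is_const_of_deriv_eq_zero (f := fun z => Cl R (γ z).2 - Fp f (γ z).1)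
      (fun z => (hd z).differentiableAt) (fun z => (hd z).deriv) z 0
    rw [h1, hγ0]
  have hp0 : |p0| ≤ R := by
    refine abs_le_of_sq_le_sq (by
      rw [h0, hR2]
      linarith [Fp_le hL q0]) hRpos.le
  have hE0 : Cl R p0 - Fp f q0 = 0 := by
    rw [Cl_eq hp0]
    linarith
  have hb : ∀ z, |(γ z).2| ≤ R := by
    intro z
    by_contra hcon
    push Not at hcon
    have h1 := Cl_ge hRpos hcon
    have h2 := hE z
    rw [hE0] at h2
    linarith [Fp_le hL (γ z).1]
  refine ⟨fun z => (γ z).1, fun z => (γ z).2, by simp only [hγ0], by simp only [hγ0],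
    fun z => ?_, hp, fun z => ?_⟩
  · have := hQ z
    rwa [cl_eq (hb z)] at this
  · have h2 := hE z
    rw [hE0, Cl_eq (hb z)] at h2
    linarith

/-- uniqueness at equilibria -/
theorem uniq {f : ℝ → ℝ} {K : ℝ} (hL : Lip f K) {Q p : ℝ → ℝ} (hQ : ∀ z, HasDerivAt Q (p z) z)
    (hp : ∀ z, HasDerivAt p (-f (Q z)) z) {c z0 : ℝ} (hc : f c = 0) (h1 : Q z0 = c)
    (h2 : p z0 = 0) (z : ℝ) : Q z = c := by
  have hvl : LipschitzWith (max 1 (K.toNNReal * 1)) (fun y : ℝ × ℝ => (y.2, -f y.1)) :=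
    (LipschitzWith.prod_snd).prodMk ((hL.lipschitz.neg).comp LipschitzWith.prod_fst)
  have h := ODE_solution_unique_univ (v := fun _ y => (y.2, -f y.1)) (s := fun _ => univ)
    (f := fun z => (Q z, p z)) (g := fun _ => (c, 0)) (t₀ := z0)
    (fun _ => hvl.lipschitzOnWith) (fun z => ⟨(hQ z).prodMk (hp z), trivial⟩)
    (fun z => ⟨by
      have h3 := hasDerivAt_const z ((c, 0) : ℝ × ℝ)
      refine h3.congr_deriv ?_
      rw [hc, neg_zero]
      rfl, trivial⟩) (by simp only [h1, h2])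
  have := congrFun h z
  exact congrArg Prod.fst this

/-- the profile -/
theorem profile {f : ℝ → ℝ} {K : ℝ} (hL : Lip f K) {s1 q0 : ℝ} (hs1 : s1 ∈ Ico (0 : ℝ) 1)
    (hz : Fp f s1 = 0) (hpos : ∀ r ∈ Ioo s1 1, 0 < Fp f r)
    (hcase : f s1 = 0 ∨ (0 < s1 ∧ ∃ η > 0, ∀ r ∈ Ioo (s1 - η) s1, Fp f r < 0))
    (hq0 : q0 ∈ Ioo s1 1) :
    ∃ (Q : ℝ → ℝ) (κ : ℝ), ContDiff ℝ 2 Q ∧ (∀ z, deriv (deriv Q) z = -f (Q z)) ∧ Q 0 = q0 ∧
      (∀ z ≤ 0, q0 ≤ Q z) ∧ (∀ z, 0 ≤ Q z) ∧ 0 < κ ∧
      ∀ z ≥ 0, κ * Real.exp (-(√K * z)) ≤ Q z := by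
  have hK := hL.K0
  have hF0 := hpos q0 hq0
  obtain ⟨Q, p, hQ0, hp0, hQ, hp, hE⟩ := flow hL q0 (-√(2 * Fp f q0)) (by
    rw [neg_sq, Real.sq_sqrt (by linarith)])
  have hQc : Continuous Q := continuous_iff_continuousAt.2 fun z => (hQ z).continuousAt
  have hp0' : p 0 < 0 := by
    rw [hp0]
    have : 0 < √(2 * Fp f q0) := Real.sqrt_pos.2 (by linarith)
    linarith
  obtain ⟨hC, hD1, hD2⟩ := contDiff_two hQ hp (hL.continuous.comp hQc).neg
  -- avoiding levels
  have havoid : ∀ c, f c = 0 → Fp f c = 0 → c ≠ q0 → ∀ z, Q z ≠ c := by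
    intro c hc hFc hne z hzc
    have h1 : p z = 0 := by
      have := hE z
      rw [hzc, hFc, mul_zero] at this
      exact pow_eq_zero_iff (two_ne_zero) |>.1 this
    have := uniq hL hQ hp hc hzc h1 0
    rw [hQ0] at this
    exact hne this.symm
  have hlt1 : ∀ z, Q z < 1 := by
    intro z
    by_contra hcon
    push Not at hcon
    have h1 : (1 : ℝ) ∈ Set.range Q :=
      mem_range_of_exists_le_of_exists_ge hQc ⟨0, by rw [hQ0]; exact hq0.2.le⟩ ⟨z, hcon⟩
    obtain ⟨z', hz'⟩ := h1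
    exact havoid 1 hL.f1 Fp_one hq0.2.ne' z' hz'
  have hges : ∀ z, s1 ≤ Q z := by
    intro z
    by_contra hcon
    push Not at hcon
    rcases hcase with h | ⟨_, η, hη, h⟩
    · have h1 : s1 ∈ Set.range Q :=
        mem_range_of_exists_le_of_exists_ge hQc ⟨z, hcon.le⟩ ⟨0, by rw [hQ0]; exact hq0.1.le⟩
      obtain ⟨z', hz'⟩ := h1
      exact havoid s1 h hz hq0.1.ne z' hz'
    · obtain ⟨r, hr1, hr2⟩ : ∃ r, max (s1 - η) (Q z) < r ∧ r < s1 :=
        exists_between (max_lt (by linarith) hcon)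
      have hr3 := lt_of_le_of_lt (le_max_left _ _) hr1
      have hr4 := lt_of_le_of_lt (le_max_right _ _) hr1
      have h1 : r ∈ Set.range Q :=
        mem_range_of_exists_le_of_exists_ge hQc ⟨z, hr4.le⟩
          ⟨0, by rw [hQ0]; linarith [hq0.1]⟩
      obtain ⟨z', hz'⟩ := h1
      have h2 := h r ⟨hr3, hr2⟩
      have h3 := hE z'
      rw [hz'] at h3
      nlinarith [sq_nonneg (p z')]
  have hleft : ∀ z ≤ 0, q0 ≤ Q z := by
    intro z2 hz2
    by_contra hcon
    push Not at hcon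
    have hz2' : z2 < 0 := lt_of_le_of_ne hz2 (fun e => by
      rw [e, hQ0] at hcon
      exact absurd hcon (lt_irrefl _))
    obtain ⟨zm, hzm, hmax⟩ := isCompact_Icc.exists_isMaxOn (nonempty_Icc.2 hz2)
      hQc.continuousOn
    -- near `0` from the left `Q > q0`
    have h1 : ∃ z3 ∈ Ioo z2 0, q0 < Q z3 := by
      by_contra hno
      push Not at hno
      have h2 : Tendsto (slope Q 0) (𝓝[<] 0) (𝓝 (p 0)) :=
        (hasDerivAt_iff_tendsto_slope.1 (hQ 0)).mono_left
          (nhdsWithin_mono _ fun x hx => ne_of_lt hx)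
      have h3 : 0 ≤ p 0 := by
        refine ge_of_tendsto h2 ?_
        filter_upwards [Ioo_mem_nhdsLT hz2'] with z hz
        rw [slope_def_field, hQ0]
        have h4 := hno z hz
        rw [sub_zero]
        exact div_nonneg_of_nonpos (by linarith) hz.2.le
      linarith
    obtain ⟨z3, hz3, h3⟩ := h1
    have h4 : q0 < Q zm := lt_of_lt_of_le h3 (hmax (Ioo_subset_Icc_self hz3))
    have hzm2 : z2 < zm := lt_of_le_of_ne hzm.1 (fun e => by
      rw [← e] at h4
      linarith)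
    have hzm0 : zm < 0 := lt_of_le_of_ne hzm.2 (fun e => by
      rw [e, hQ0] at h4
      exact absurd h4 (lt_irrefl _))
    have hloc : IsLocalMax Q zm := by
      filter_upwards [Icc_mem_nhds hzm2 hzm0] with y hy
      exact hmax hy
    have hd := hloc.hasDerivAt_eq_zero (hQ zm)
    have h5 := hE zm
    rw [hd] at h5
    have h6 := hpos (Q zm) ⟨by linarith [hq0.1], hlt1 zm⟩
    nlinarith
  refine ⟨Q, if s1 = 0 then q0 else s1, hC, fun z => by rw [hD2], hQ0, hleft,
    fun z => hs1.1.trans (hges z), ?_, fun z hz0 => ?_⟩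
  · split_ifs with h
    · linarith [hq0.1, hs1.1]
    · exact lt_of_le_of_ne hs1.1 (Ne.symm h)
  · split_ifs with h
    · rw [h] at hz
      have hQn : ∀ z, 0 ≤ Q z := fun z => hs1.1.trans (hges z)
      have hder : ∀ z, HasDerivAt (fun z => Q z * Real.exp (√K * z))
          (p z * Real.exp (√K * z) + Q z * (Real.exp (√K * z) * √K)) z := by
        intro z
        have h1 : HasDerivAt (fun z : ℝ => √K * z) (√K) z := by
          simpa using (hasDerivAt_id z).const_mul (√K)
        exact (hQ z).mul h1.exp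
      have hmono : Monotone (fun z => Q z * Real.exp (√K * z)) := by
        refine monotone_of_deriv_nonneg (fun z => (hder z).differentiableAt) fun z => ?_
        rw [(hder z).deriv]
        have h1 : -(√K * Q z) ≤ p z := by
          have h2 : p z ^ 2 ≤ (√K * Q z) ^ 2 := by
            rw [mul_pow, Real.sq_sqrt hK.le, hE z]
            exact Fp_sq hL hz (hQn z)
          exact (abs_le_of_sq_le_sq' h2 (mul_nonneg (Real.sqrt_nonneg _) (hQn z))).1
        have h3 := Real.exp_pos (√K * z)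
        nlinarith
      have h1 := hmono hz0
      simp only [mul_zero, Real.exp_zero, mul_one, hQ0] at h1
      rw [Real.exp_neg, ← div_eq_mul_inv, div_le_iff₀ (Real.exp_pos _)]
      exact h1
    · have h1 : Real.exp (-(√K * z)) ≤ 1 := by
        rw [Real.exp_le_one_iff]
        have := mul_nonneg (Real.sqrt_nonneg K) hz0
        linarith
      calc s1 * Real.exp (-(√K * z)) ≤ s1 * 1 := mul_le_mul_of_nonneg_left h1 hs1.1
        _ ≤ Q z := by rw [mul_one]; exact hges z

end Pool.Agent.H54.RF
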