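import Pool.Agent.H65.RF.TE1
import Pool.Agent.H90.RD.Line
import Pool.Agent.H54.RF.TE2a

/-!
# MP_609556_an, full answer: module TE2 (`∫_s^1 f > 0`)
-/

open MeasureTheory Set Filter Topology Metric
open Pool.Agent.H29.TF (hk P)
open Pool.Agent.H91.RD Pool.Agent.H91.RF Pool.Agent.H35.RD Pool.Agent.H65.RF Pool.Agent.H90.RD

namespace Pool.Agent.H54.RF

variable {N : ℕ}

/-- the Laplacian of a ridge function -/
theorem lap_ridge {q : ℝ → ℝ} (hq : ContDiff ℝ 2 q) {e : E N} (he : ‖e‖ = 1) (L : ℝ) :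
    ContDiff ℝ 2 (fun x : E N => q (inner ℝ x e - L)) ∧
    ∀ x : E N, Laplacian.laplacian (fun x : E N => q (inner ℝ x e - L)) x =
      deriv (deriv q) (inner ℝ x e - L) := by
  have hY : ContDiff ℝ 2 (fun x : E N => (inner ℝ x e - L : ℝ)) :=
    (contDiff_id.inner ℝ contDiff_const).sub contDiff_const
  have hg : ContDiff ℝ 2 (fun x : E N => q (inner ℝ x e - L)) := hq.comp hY
  refine ⟨hg, fun x => ?_⟩
  rw [lap_eq_sum]
  have h1 : ∀ v : E N, fderiv ℝ (fderiv ℝ (fun x : E N => q (inner ℝ x e - L))) x v v =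
      deriv (deriv q) (inner ℝ x e - L) * (inner ℝ e v) ^ 2 := by
    intro v
    have hdY : ∀ t : ℝ, HasDerivAt (fun t : ℝ => (inner ℝ (x + t • v) e - L : ℝ)) (inner ℝ e v) t := by
      intro t
      have h2 : (fun t : ℝ => (inner ℝ (x + t • v) e - L : ℝ)) =
          fun t => t * inner ℝ e v + (inner ℝ x e - L) := by
        funext t
        rw [inner_add_left, real_inner_smul_left, real_inner_comm v e]
        ring
      rw [h2]
      have h3 := ((hasDerivAt_id t).mul_const (inner ℝ e v)).add_const (inner ℝ x e - L)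
      simpa using h3
    refine line_eq (g := fun x : E N => q (inner ℝ x e - L)) hg.contDiffAt
      (p := fun t => deriv q (inner ℝ (x + t • v) e - L) * inner ℝ e v) (fun t => ?_) ?_
    · exact ((hq.differentiable (by norm_num) _).hasDerivAt).comp t (hdY t)
    · have a2 : Differentiable ℝ (deriv q) := (hq.deriv' (n := 1)).differentiable (by norm_num)
      have a3 := hdY 0
      have a4 : HasDerivAt (deriv q) (deriv (deriv q) (inner ℝ (x + (0 : ℝ) • v) e - L))
          (inner ℝ (x + (0 : ℝ) • v) e - L) := (a2 _).hasDerivAt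
      have a5 := (a4.comp (0 : ℝ) a3).mul_const (inner ℝ e v)
      rw [zero_smul, add_zero] at a5
      refine HasDerivAt.congr_deriv
        (f := fun t => deriv q (inner ℝ (x + t • v) e - L) * inner ℝ e v) a5 (by ring)
  simp_rw [h1]
  rw [← Finset.mul_sum, sum_inner_sq, he]
  ring

/-- the solution at time `1` is bounded by a constant smaller than `1` -/
theorem bound_one (hSH : T_SH) {f : ℝ → ℝ} {K ρ : ℝ} (hN : 1 ≤ N) (hL : Lip f K) (hρ : 0 < ρ)
    {w : ℝ → E N → ℝ} (hw : Mild f 0 w) (hR : Rng 0 w) (hw0 : w 0 = chi (ball (0 : E N) ρ)) :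
    ∃ m < 1, ∀ x, w 1 x ≤ m := by
  obtain ⟨c0, hc0, hP⟩ := P_out (N := N) hN hρ
  have hK := hL.K0
  have hsub : ∀ {s t : ℝ}, 0 ≤ s → Ioc s t ×ˢ (univ : Set (E N)) ⊆ Ioi 0 ×ˢ univ := fun {s t} hs =>
    prod_mono (fun r hr => by
      have := hr.1
      show 0 < r
      linarith) (subset_refl _)
  have hfw : ∀ r ≥ 0, ∀ x, |f (w r x)| ≤ K := by
    intro r hr x
    refine (hL.abs_le _).trans ?_
    rw [abs_of_nonneg (hR r hr x).1]
    exact mul_le_of_le_one_right hK.le (hR r hr x).2
  refine ⟨1 - Real.exp (-K) * c0, by linarith [mul_pos (Real.exp_pos (-K)) hc0], ?_⟩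
  intro x
  have key := hSH N K (1 + K) 0 1 (fun r x => 1 - w r x) (fun r x => -f (w r x)) one_pos
    (measurable_const.sub hw.meas)
    (fun r hr x => by
      rw [abs_of_nonneg (by linarith [(hR r hr.1 x).2])]
      linarith [(hR r hr.1 x).1])
    (fun r hr x => by
      rw [abs_neg]
      linarith [hfw r hr.1 x])
    (continuousOn_const.sub (hw.cont.mono (hsub le_rfl)))
    (((mild_comp_cont hL hw).mono (hsub le_rfl)).neg) ?_ 1 ⟨one_pos, le_rfl⟩ x
  · have h1 : 0 ≤ ∫ q in (0 : ℝ)..1, Real.exp (-(K * (1 - q))) *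
        P (1 - q) (fun y => -f (w q y) + K * (1 - w q y)) x := by
      refine intervalIntegral.integral_nonneg zero_le_one fun q hq => ?_
      refine mul_nonneg (Real.exp_pos _).le
        (Pool.Agent.H29.TF.P_nonneg (by linarith [hq.2]) (fun y => ?_) x)
      have h2 := hL.lip (w q y) 1
      have h5 : w q y - 1 ≤ 0 := by linarith [(hR q hq.1 y).2]
      rw [hL.f1, sub_zero, abs_of_nonpos h5] at h2
      linarith [le_abs_self (f (w q y))]
    have h3 := hP x
    simp only [sub_zero, mul_one] at key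
    rw [hw0] at key
    have h4 : Real.exp (-K) * c0 ≤ Real.exp (-K) * P 1 (fun y => 1 - chi (ball (0 : E N) ρ) y) x :=
      mul_le_mul_of_nonneg_left h3 (Real.exp_pos _).le
    linarith
  · intro r hr x
    have h1 := duh_sub_const (θ := 1) hw le_rfl hr.1 x
    have h2 : P (r - 0) (fun y => 1 - w 0 y) x = -P (r - 0) (fun y => w 0 y - 1) x := by
      rw [← neg_one_mul, ← Pool.Agent.H29.TF.P_const_mul]
      congr 1
      funext y
      ring
    have h3 : ∫ q in (0 : ℝ)..r, P (r - q) (fun y => -f (w q y)) x =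
        -∫ q in (0 : ℝ)..r, P (r - q) (fun y => f (w q y)) x := by
      rw [← intervalIntegral.integral_neg]
      congr 1
      funext q
      rw [← neg_one_mul, ← Pool.Agent.H29.TF.P_const_mul]
      congr 1
      funext y
      ring
    show 1 - w r x = P (r - 0) (fun y => 1 - w 0 y) x + _
    rw [h2, h3]
    linarith

/-- Gaussian tail of the solution at time `1` -/
theorem tail_one (hCMP : T_CMP) (hTAIL : T_TAIL) {f : ℝ → ℝ} {K ρ : ℝ} (hL : Lip f K)
    {w : ℝ → E N → ℝ} (hw : Mild f 0 w) (hw0 : w 0 = chi (ball (0 : E N) ρ)) :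
    ∃ C > 0, ∀ x : E N, ∀ r, 0 ≤ r → r ≤ ‖x‖ - ρ → w 1 x ≤ C * Real.exp (-(r ^ 2 / 8)) := by
  refine ⟨Real.exp K * (1 / 2 : ℝ) ^ (-(N : ℝ) / 2), by positivity, fun x r hr0 hr => ?_⟩
  have h1 := hCMP N f K K 0 0 1 w (fun _ _ => 0) hL le_rfl one_pos hw (mild_const hL.f0 0)
    (fun r _ y hy => by
      have := hL.lip (w r y) 0
      rw [abs_of_pos (by linarith : 0 < w r y - 0)] at this
      exact (le_abs_self _).trans this) x
  have h2 : (fun y => max (w 0 y - 0) 0) = chi (ball (0 : E N) ρ) := by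
    funext y
    rw [hw0, sub_zero, max_eq_left (chi_nonneg _ _)]
  simp only [h2] at h1
  rw [sub_zero, sub_zero, mul_one] at h1
  have h3 := hTAIL N (1 / 2) 1 r (by norm_num) (by norm_num) one_pos hr0 x (chi (ball (0 : E N) ρ))
    (measurable_const.indicator measurableSet_ball).aestronglyMeasurable
    (fun y => ⟨chi_nonneg _ _, chi_le_one _ _⟩) (fun y hy => by
      apply chi_notMem
      intro hy2
      rw [mem_ball_zero_iff] at hy2
      have h4 : ‖x‖ ≤ dist x y + ‖y‖ := by
        have := norm_add_le (x - y) y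
        rw [sub_add_cancel] at this
        rwa [dist_eq_norm]
      linarith)
  have h4 : -((1 - 1 / 2) * r ^ 2 / (4 * 1)) = -(r ^ 2 / 8) := by ring
  rw [h4] at h3
  calc w 1 x ≤ Real.exp K * P 1 (chi (ball (0 : E N) ρ)) x := h1
    _ ≤ Real.exp K * ((1 / 2 : ℝ) ^ (-(N : ℝ) / 2) * Real.exp (-(r ^ 2 / 8))) :=
        mul_le_mul_of_nonneg_left h3 (Real.exp_pos _).le
    _ = _ := by ring

/-- [TE2] -/
theorem te2 (hTE1 : T_TE1) (hSOLM : T_SOLM) (hSH : T_SH) (hCMP : T_CMP) (hTAIL : T_TAIL)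
    (hMP0 : T_MP0) : T_TE2 := by
  intro N f K ρ hN hf hL hρ hinv s hs
  by_contra hcon
  rw [not_lt] at hcon
  obtain ⟨δ, hδ, -, hδ2⟩ := hTE1 N f K ρ hN hf hL hρ hinv
  obtain ⟨s1, hs1, hz, hpos, hcase⟩ := exists_s1 hL hδ hδ2 hs hcon
  obtain ⟨v, hv, hlim⟩ := hinv
  have hS := hSOLM N f K _ v hL measurableSet_ball hv
  have hK := hL.K0
  have hw0 : lift0 (ball (0 : E N) ρ) v 0 = chi (ball (0 : E N) ρ) := lift0_nonpos le_rfl
  have hw1 : lift0 (ball (0 : E N) ρ) v 1 = v 1 := lift0_pos one_pos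
  obtain ⟨m, hm1, hm⟩ := bound_one hSH hN hL hρ hS.mild hS.rng hw0
  obtain ⟨C, hC, htail⟩ := tail_one hCMP hTAIL hL hS.mild hw0
  rw [hw1] at hm htail
  obtain ⟨q0, hq1, hq2⟩ : ∃ q0, max m s1 < q0 ∧ q0 < 1 := exists_between (max_lt hm1 hs1.2)
  have hmq : m < q0 := lt_of_le_of_lt (le_max_left _ _) hq1
  have hsq : s1 < q0 := lt_of_le_of_lt (le_max_right _ _) hq1
  obtain ⟨Q, κ, hQ2, hQd, hQ0, hQl, hQn, hκ, hQr⟩ := profile hL hs1 hz hpos hcase ⟨hsq, hq2⟩
  obtain ⟨e, he⟩ := exists_unit hN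
  obtain ⟨D, hD⟩ : ∃ D, D = 4 * √K + 8 * |Real.log (C / κ)| + 1 := ⟨_, rfl⟩
  have hsK := Real.sqrt_nonneg K
  have habs := abs_nonneg (Real.log (C / κ))
  have hD1 : 1 ≤ D := by linarith
  have hD2 : 4 * √K ≤ D := by linarith
  have hD3 : C * Real.exp (-(D ^ 2 / 8)) ≤ κ := by
    have h1 : Real.log (C / κ) ≤ D ^ 2 / 8 := by
      have h2 := le_abs_self (Real.log (C / κ))
      nlinarith
    have h2 : C / κ ≤ Real.exp (D ^ 2 / 8) := by
      rw [← Real.exp_log (div_pos hC hκ)]
      exact Real.exp_le_exp.2 h1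
    rw [div_le_iff₀ hκ] at h2
    rw [Real.exp_neg, ← div_eq_mul_inv, div_le_iff₀ (Real.exp_pos _)]
    linarith
  obtain ⟨L, hLd⟩ : ∃ L, L = ρ + D := ⟨_, rfl⟩
  -- comparison at time `1`
  have hinit : ∀ x : E N, v 1 x ≤ Q (inner ℝ x e - L) := by
    intro x
    rcases le_total (inner ℝ x e) L with hx | hx
    · have := hQl (inner ℝ x e - L) (by linarith)
      linarith [hm x]
    · obtain ⟨z, hzd⟩ : ∃ z, z = inner ℝ x e - L := ⟨_, rfl⟩
      have hz0 : 0 ≤ z := by linarith
      rw [← hzd]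
      have hnx : inner ℝ x e ≤ ‖x‖ := by
        have := real_inner_le_norm x e
        rwa [he, mul_one] at this
      have h1 := htail x (D + z) (by linarith) (by linarith)
      have h2 : -((D + z) ^ 2 / 8) ≤ -(D ^ 2 / 8) + -(√K * z) := by
        nlinarith [mul_nonneg hz0 (sub_nonneg.2 hD2), sq_nonneg z]
      calc v 1 x ≤ C * Real.exp (-((D + z) ^ 2 / 8)) := h1
        _ ≤ C * Real.exp (-(D ^ 2 / 8) + -(√K * z)) :=
            mul_le_mul_of_nonneg_left (Real.exp_le_exp.2 h2) hC.le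
        _ = C * Real.exp (-(D ^ 2 / 8)) * Real.exp (-(√K * z)) := by
            rw [Real.exp_add]
            ring
        _ ≤ κ * Real.exp (-(√K * z)) := mul_le_mul_of_nonneg_right hD3 (Real.exp_pos _).le
        _ ≤ Q z := hQr z hz0
  obtain ⟨hR2, hRlap⟩ := lap_ridge (N := N) hQ2 he L
  have hQc : Continuous (fun x : E N => Q (inner ℝ x e - L)) := hR2.continuous
  have hcomp : ∀ t > 1, v t (L • e) ≤ q0 := by
    intro t ht
    have h := hMP0 N K 1 t 1 (fun t x => Q (inner ℝ x e - L) - v t x) hK.le ht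
      ((hQc.comp continuous_snd).continuousOn.sub (hv.cont.mono (prod_mono (fun r hr => by
        have := hr.1
        show 0 < r
        linarith) (subset_refl _))))
      (fun r hr x => by
        have h1 := hQn (inner ℝ x e - L)
        have h2 := hS.le_one (by linarith [hr.1] : 0 < r) x
        linarith)
      (fun r hr x hneg => by
        have hr0 : 0 < r := by linarith [hr.1]
        refine ⟨(hR2.sub (hv.c2 r hr0)).contDiffAt,
          (differentiableAt_const _).sub (hv.dt r hr0 x), ?_⟩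
        have e1 : Laplacian.laplacian (fun x : E N => Q (inner ℝ x e - L) - v r x) x =
            Laplacian.laplacian (fun x : E N => Q (inner ℝ x e - L)) x -
              Laplacian.laplacian (v r) x :=
          hR2.contDiffAt.laplacian_sub (hv.c2 r hr0).contDiffAt
        have e2 : deriv (fun s => Q (inner ℝ x e - L) - v s x) r =
            -(Laplacian.laplacian (v r) x + f (v r x)) := by
          rw [deriv_const_sub, hv.eqn r hr0 x]
        rw [e1, e2, hRlap, hQd]
        have h2 := hL.lip (v r x) (Q (inner ℝ x e - L))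
        rw [abs_of_pos (by linarith : 0 < v r x - Q (inner ℝ x e - L))] at h2
        have h3 := (abs_le.1 h2).2
        nlinarith)
      (fun x => by
        have := hinit x
        linarith) t ⟨ht.le, le_rfl⟩ (L • e)
    have h1 : inner ℝ (L • e) e = L := by
      rw [real_inner_smul_left, real_inner_self_eq_norm_sq, he]
      ring
    simp only [h1, sub_self, hQ0] at h
    linarith
  have hL0 : 0 < L := by linarith
  have hmem : L • e ∈ closedBall (0 : E N) L := by
    rw [mem_closedBall_zero_iff, norm_smul, he, Real.norm_eq_abs, abs_of_pos hL0, mul_one]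
  have h1 := (hlim L hL0).tendsto_at hmem
  have h2 : ∀ᶠ t : ℝ in atTop, v t (L • e) ≤ q0 := by
    filter_upwards [eventually_gt_atTop (1 : ℝ)] with t ht
    exact hcomp t ht
  have h3 := le_of_tendsto h1 h2
  linarith

end Pool.Agent.H54.RF
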